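import Pool.Agent.V1198.FP1

/-!
# A projective Banach lattice without topological order unit that is not free

The free Banach lattice on uncountably many *positive* generators is projective, has no topological
order unit, and is not isometrically lattice isomorphic to any free Banach lattice.
-/

set_option autoImplicit false
set_option linter.unusedSectionVars false
set_option linter.unusedVariables false

noncomputable section

open Filter Topology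

namespace Pool.Agent.Results.MP_be51b2_an.Positive

open Pool.Agent.V1198.BL Pool.Agent.V1198.YS Pool.Agent.V1198.FP

/-- `(F, δ)` is the free Banach lattice on the set `A`. -/
def IsFree (A : Type) (F : BLat) (δ : A → F) : Prop :=
  (∀ a, ‖δ a‖ = 1) ∧ ∀ (X : BLat) (f : A → X), BddAbove (Set.range fun a => ‖f a‖) →
    ∃ T : F →L[ℝ] X, IsLatHom T ∧ (∀ a, T (δ a) = f a) ∧ ‖T‖ = (⨆ a, ‖f a‖) ∧
      ∀ T' : F →L[ℝ] X, IsLatHom T' → (∀ a, T' (δ a) = f a) → T' = T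

/-! ### Existence of free Banach lattices -/

theorem exists_free (A : Type) [Nonempty A] : ∃ (F : BLat) (δ : A → F), IsFree A F δ := by
  classical
  refine ⟨PP A False, pp A False, fun a => le_antisymm (pp_adm A False a).2 ?_, fun X f hf => ?_⟩
  · obtain ⟨ω, hω, h1, h2⟩ := exists_hom (Γ := A) (b := False) (X := realLat)
      (fun _ => (1 : ℝ)) (c := 1) zero_le_one fun γ => ⟨fun h => h.elim, (norm_one (α := ℝ)).le⟩
    have h3 := ω.le_opNorm (pp A False a)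
    rw [h1] at h3
    have h4 : ‖(1 : ℝ)‖ ≤ ‖ω‖ * ‖pp A False a‖ := h3
    rw [norm_one] at h4
    have h5 := mul_le_mul_of_nonneg_right h2 (norm_nonneg (pp A False a))
    linarith
  · have hc : 0 ≤ ⨆ a, ‖f a‖ := Real.iSup_nonneg fun a => norm_nonneg _
    obtain ⟨T, hT, h1, h2⟩ := exists_hom (b := False) f hc fun a =>
      ⟨fun h => h.elim, le_ciSup hf a⟩
    refine ⟨T, hT, h1, le_antisymm h2 (ciSup_le fun a => ?_), fun T' hT' h3 =>
      hom_ext hT' hT fun a => by rw [h3, h1]⟩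
    have h3 := T.le_opNorm (pp A False a)
    rw [h1] at h3
    exact h3.trans ((mul_le_mul_of_nonneg_left (pp_adm A False a).2 (norm_nonneg T)).trans
      (mul_one _).le)

/-! ### Norms of sums of two homomorphisms -/

/-- Coordinates on `ℓ_1`. -/
def cf (j : ℕ) : ellOne →L[ℝ] realLat :=
  LinearMap.mkContinuous
    { toFun := fun x => ((show Sp ellOneSpec from x) j : ℝ)
      map_add' := fun x y => rfl
      map_smul' := fun c x => rfl } 1 fun x => by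
    rw [one_mul]
    exact Sp.apply_le (show Sp ellOneSpec from x) j

theorem cf_apply (j : ℕ) (x : ellOne) : cf j x = (show Sp ellOneSpec from x) j := rfl

theorem cf_hom (j : ℕ) : IsLatHom (cf j) := fun x => rfl

theorem cf_e (i j : ℕ) : cf j (ellOne_l1Like.e i : ellOne) = if j = i then (1 : ℝ) else 0 :=
  L1Like.e_apply ellOne_l1Like i j

theorem norm_e (j : ℕ) : ‖(ellOne_l1Like.e j : ellOne)‖ ≤ 1 := by
  rw [ellOne_norm, tsum_eq_single j fun i hi => by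
    rw [L1Like.e_apply, if_neg hi, abs_zero]]
  rw [L1Like.e_apply, if_pos rfl, abs_one]

/-- The vector `s e₀ + t e₁`. -/
def vv (s t : ℝ) : ellOne :=
  s • (ellOne_l1Like.e 0 : ellOne) + t • (ellOne_l1Like.e 1 : ellOne)

theorem vv_norm (s t : ℝ) : ‖vv s t‖ ≤ |s| + |t| := by
  refine (norm_add_le _ _).trans (add_le_add ?_ ?_)
  · rw [norm_smul, Real.norm_eq_abs]
    exact (mul_le_mul_of_nonneg_left (norm_e 0) (abs_nonneg _)).trans (mul_one _).le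
  · rw [norm_smul, Real.norm_eq_abs]
    exact (mul_le_mul_of_nonneg_left (norm_e 1) (abs_nonneg _)).trans (mul_one _).le

theorem vv_zero (s t : ℝ) : cf 0 (vv s t) = s := by
  have h : cf 0 (vv s t) = s * cf 0 (ellOne_l1Like.e 0 : ellOne) +
      t * cf 0 (ellOne_l1Like.e 1 : ellOne) := rfl
  rw [h, cf_e, cf_e]
  change s * (if (0 : ℕ) = 0 then (1 : ℝ) else 0) + t * (if (0 : ℕ) = 1 then (1 : ℝ) else 0) = s
  simp

theorem vv_one (s t : ℝ) : cf 1 (vv s t) = t := by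
  have h : cf 1 (vv s t) = s * cf 1 (ellOne_l1Like.e 0 : ellOne) +
      t * cf 1 (ellOne_l1Like.e 1 : ellOne) := rfl
  rw [h, cf_e, cf_e]
  change s * (if (1 : ℕ) = 0 then (1 : ℝ) else 0) + t * (if (1 : ℕ) = 1 then (1 : ℝ) else 0) = t
  simp

theorem norm_add_le_of {F : BLat} {φ ω : F →L[ℝ] realLat} {T : F →L[ℝ] ellOne}
    (h0 : (cf 0).comp T = φ) (h1 : (cf 1).comp T = ω) {c : ℝ} (hc : 0 ≤ c) (hT : ‖T‖ ≤ c) :
    ‖φ + ω‖ ≤ c := by
  refine ContinuousLinearMap.opNorm_le_bound _ hc fun x => ?_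
  rw [← h0, ← h1]
  change |(show Sp ellOneSpec from T x) 0 + (show Sp ellOneSpec from T x) 1| ≤ c * ‖x‖
  have h2 := Sp.sum_le_norm (P := ellOneSpec) (show Sp ellOneSpec from T x)
    (F := {0, 1}) (Set.mem_univ _)
  rw [Finset.sum_pair (by norm_num)] at h2
  have h3 : ‖T x‖ ≤ c * ‖x‖ :=
    (T.le_opNorm x).trans (mul_le_mul_of_nonneg_right hT (norm_nonneg _))
  exact (abs_add_le _ _).trans (h2.trans h3)

/-! ### Separation of homomorphisms on the lattice with positive generators -/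

variable {Γ : Type}

theorem key {φ ψ : PP Γ True →L[ℝ] realLat} (hφ : IsLatHom φ) (hφ1 : ‖φ‖ ≤ 1)
    (h : ∀ ω : PP Γ True →L[ℝ] realLat, IsLatHom ω → ‖ψ + ω‖ ≤ ‖φ + ω‖) (γ : Γ) :
    (ψ (pp Γ True γ) : ℝ) ≤ φ (pp Γ True γ) := by
  classical
  obtain ⟨ω, hω, h1, -⟩ := exists_hom (b := True) (X := realLat)
    (fun γ' => if γ' = γ then (1 : ℝ) else 0) (c := 1) zero_le_one fun γ' => by
      constructor
      · intro _
        change (0 : ℝ) ≤ if γ' = γ then (1 : ℝ) else 0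
        split_ifs <;> norm_num
      · change ‖(if γ' = γ then (1 : ℝ) else 0 : ℝ)‖ ≤ 1
        split_ifs <;> norm_num
  have hpos : ∀ γ', (0 : ℝ) ≤ φ (pp Γ True γ') := fun γ' =>
    hφ.nonneg ((pp_adm Γ True γ').1 trivial)
  have hle1 : ∀ γ', (φ (pp Γ True γ') : ℝ) ≤ 1 := fun γ' => by
    have h2 : ‖φ (pp Γ True γ')‖ ≤ ‖φ‖ * ‖pp Γ True γ'‖ := φ.le_opNorm _
    have h3 : ‖φ‖ * ‖pp Γ True γ'‖ ≤ 1 * 1 :=
      mul_le_mul hφ1 (pp_adm Γ True γ').2 (norm_nonneg _) zero_le_one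
    have h4 : (φ (pp Γ True γ') : ℝ) ≤ ‖φ (pp Γ True γ')‖ := le_abs_self (α := ℝ) _
    linarith
  have hω0 : ∀ γ', (0 : ℝ) ≤ ω (pp Γ True γ') := fun γ' =>
    hω.nonneg ((pp_adm Γ True γ').1 trivial)
  have hc : (0 : ℝ) ≤ φ (pp Γ True γ) + 1 := add_nonneg (hpos γ) zero_le_one
  obtain ⟨T, hT, h2, h3⟩ := exists_hom (b := True) (X := ellOne)
    (fun γ' => vv (φ (pp Γ True γ')) (ω (pp Γ True γ'))) hc fun γ' => by
      refine ⟨fun _ => add_nonneg (smul_nonneg (hpos γ') (ellOne_l1Like.e_nonneg 0))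
        (smul_nonneg (hω0 γ') (ellOne_l1Like.e_nonneg 1)), (vv_norm _ _).trans ?_⟩
      rw [abs_of_nonneg (hpos γ'), abs_of_nonneg (hω0 γ')]
      have h4 : (ω (pp Γ True γ') : ℝ) = if γ' = γ then (1 : ℝ) else 0 := h1 γ'
      rw [h4]
      split_ifs with h5
      · rw [h5]
      · rw [add_zero]
        have := hle1 γ'
        have := hpos γ
        linarith
  have h4 : ‖φ + ω‖ ≤ φ (pp Γ True γ) + 1 :=
    norm_add_le_of (T := T) (hom_ext ((cf_hom 0).comp hT) hφ fun γ' => by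
      rw [ContinuousLinearMap.comp_apply, h2, vv_zero]) (hom_ext ((cf_hom 1).comp hT) hω fun γ' => by
      rw [ContinuousLinearMap.comp_apply, h2, vv_one]) hc h3
  have h5 : ‖(ψ + ω) (pp Γ True γ)‖ ≤ ‖ψ + ω‖ * ‖pp Γ True γ‖ := (ψ + ω).le_opNorm _
  have h6 : (ψ (pp Γ True γ) : ℝ) + 1 ≤ ‖(ψ + ω) (pp Γ True γ)‖ := by
    have h7 : (ω (pp Γ True γ) : ℝ) = 1 := (h1 γ).trans (if_pos rfl)
    have h8 : ‖(ψ + ω) (pp Γ True γ)‖ = |(ψ (pp Γ True γ) : ℝ) + (ω (pp Γ True γ) : ℝ)| := rfl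
    rw [h8, h7]
    exact le_abs_self _
  have h7 : ‖ψ + ω‖ * ‖pp Γ True γ‖ ≤ ‖ψ + ω‖ * 1 :=
    mul_le_mul_of_nonneg_left (pp_adm Γ True γ).2 (ContinuousLinearMap.opNorm_nonneg _)
  have h8 := h ω hω
  linarith

/-! ### Free Banach lattices -/

section free

variable {A : Type} {F : BLat} {δ : A → F}

theorem free_ext (h : IsFree A F δ) {X : BLat} {T T' : F →L[ℝ] X} (hT : IsLatHom T)
    (hT' : IsLatHom T') (heq : ∀ a, T (δ a) = T' (δ a)) : T = T' := by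
  obtain ⟨S, -, -, -, hS⟩ := h.2 X (fun a => T (δ a)) ⟨‖T‖, by
    rintro _ ⟨a, rfl⟩
    have := T.le_opNorm (δ a)
    rwa [h.1, mul_one] at this⟩
  rw [hS T hT fun a => rfl, hS T' hT' fun a => (heq a).symm]

theorem free_norm_le [Nonempty A] (h : IsFree A F δ) {φ ω : F →L[ℝ] realLat} (hφ : IsLatHom φ)
    (hω : IsLatHom ω) {c : ℝ} (hc : 0 ≤ c)
    (hb : ∀ a, |(φ (δ a) : ℝ)| + |(ω (δ a) : ℝ)| ≤ c) : ‖φ + ω‖ ≤ c := by
  have hle : ∀ a, ‖vv (φ (δ a)) (ω (δ a))‖ ≤ c := fun a => (vv_norm _ _).trans (hb a)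
  obtain ⟨T, hT, h1, h2, -⟩ := h.2 ellOne (fun a => vv (φ (δ a)) (ω (δ a))) ⟨c, by
    rintro _ ⟨a, rfl⟩
    exact hle a⟩
  refine norm_add_le_of (T := T) (free_ext h ((cf_hom 0).comp hT) hφ fun a => ?_)
    (free_ext h ((cf_hom 1).comp hT) hω fun a => ?_) hc (h2.le.trans (ciSup_le hle))
  · rw [ContinuousLinearMap.comp_apply, h1, vv_zero]
  · rw [ContinuousLinearMap.comp_apply, h1, vv_one]

/-- Changing signs of the values at the generators does not change the norm of the sum. -/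
theorem free_sum_le [Nonempty A] (h : IsFree A F δ) {φ ψ ω : F →L[ℝ] realLat} (hφ : IsLatHom φ)
    (hψ : IsLatHom ψ) (hω : IsLatHom ω) (hb : ∀ a, |(ψ (δ a) : ℝ)| = |(φ (δ a) : ℝ)|) :
    ‖ψ + ω‖ ≤ ‖φ + ω‖ := by
  refine free_norm_le h hψ hω (norm_nonneg _) fun a => ?_
  have h1 : ‖(φ + ω) |δ a|‖ ≤ ‖φ + ω‖ * ‖|δ a|‖ := (φ + ω).le_opNorm _
  rw [norm_abs_eq_norm, h.1, mul_one] at h1
  have h2 : ‖(φ + ω) |δ a|‖ = |(|(φ (δ a) : ℝ)| + |(ω (δ a) : ℝ)|)| := by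
    have h3 : (φ + ω) |δ a| = φ |δ a| + ω |δ a| := rfl
    rw [h3, hφ, hω]
    rfl
  rw [hb]
  rw [h2] at h1
  exact (le_abs_self _).trans h1

theorem not_iso [Nonempty A] (h : IsFree A F δ) (Φ : F ≃ₗᵢ[ℝ] PP Γ True)
    (hΦ : ∀ x, Φ |x| = |Φ x|) : False := by
  obtain ⟨φ, hφ, h1, h2, -⟩ := h.2 realLat (fun _ => (1 : ℝ)) ⟨‖(1 : ℝ)‖, by
    rintro _ ⟨a, rfl⟩; exact le_rfl⟩
  obtain ⟨ψ, hψ, h3, h4, -⟩ := h.2 realLat (fun _ => (-1 : ℝ)) ⟨‖(-1 : ℝ)‖, by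
    rintro _ ⟨a, rfl⟩; exact le_rfl⟩
  have h2' : ‖φ‖ ≤ 1 := by
    rw [h2]
    exact ciSup_le fun _ => (norm_one (α := ℝ)).le
  have h4' : ‖ψ‖ ≤ 1 := by
    rw [h4]
    exact ciSup_le fun _ => ((norm_neg (1 : ℝ)).trans (norm_one (α := ℝ))).le
  have habs : ∀ a, |(ψ (δ a) : ℝ)| = |(φ (δ a) : ℝ)| := fun a => by
    have e1 : (ψ (δ a) : ℝ) = -1 := h3 a
    have e2 : (φ (δ a) : ℝ) = 1 := h1 a
    rw [e1, e2, abs_neg]
  -- transfer
  set Ψ : PP Γ True →L[ℝ] F := (Φ.symm.toContinuousLinearEquiv : PP Γ True →L[ℝ] F) with hΨ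
  have hΨa : ∀ y, Ψ y = Φ.symm y := fun y => rfl
  have hΨl : IsLatHom Ψ := fun y => by
    rw [hΨa, hΨa]
    apply Φ.injective
    rw [hΦ, Φ.apply_symm_apply, Φ.apply_symm_apply]
  set Θ : F →L[ℝ] PP Γ True := (Φ.toContinuousLinearEquiv : F →L[ℝ] PP Γ True) with hΘ
  have hΘa : ∀ y, Θ y = Φ y := fun y => rfl
  have hΘl : IsLatHom Θ := fun y => hΦ y
  have hnorm : ∀ μ : F →L[ℝ] realLat, ‖μ.comp Ψ‖ ≤ ‖μ‖ := fun μ =>
    ContinuousLinearMap.opNorm_le_bound _ (norm_nonneg _) fun y => by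
      rw [ContinuousLinearMap.comp_apply]
      refine (μ.le_opNorm _).trans (le_of_eq ?_)
      rw [hΨa, Φ.symm.norm_map]
  have hnorm' : ∀ μ : PP Γ True →L[ℝ] realLat, ‖μ.comp Θ‖ ≤ ‖μ‖ := fun μ =>
    ContinuousLinearMap.opNorm_le_bound _ (ContinuousLinearMap.opNorm_nonneg _) fun y => by
      rw [ContinuousLinearMap.comp_apply]
      refine (μ.le_opNorm _).trans (le_of_eq ?_)
      rw [hΘa, Φ.norm_map]
  have hsum : ∀ {φ ψ : F →L[ℝ] realLat}, IsLatHom φ → IsLatHom ψ →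
      (∀ a, |(ψ (δ a) : ℝ)| = |(φ (δ a) : ℝ)|) → ∀ ω : PP Γ True →L[ℝ] realLat, IsLatHom ω →
      ‖ψ.comp Ψ + ω‖ ≤ ‖φ.comp Ψ + ω‖ := by
    intro φ ψ hφ hψ hab ω hω
    have e1 : ψ.comp Ψ + ω = (ψ + ω.comp Θ).comp Ψ := by
      refine ContinuousLinearMap.ext fun y => ?_
      change ψ (Ψ y) + ω y = ψ (Ψ y) + ω (Θ (Ψ y))
      rw [hΘa, hΨa, Φ.apply_symm_apply]
    have e2 : φ + ω.comp Θ = (φ.comp Ψ + ω).comp Θ := by
      refine ContinuousLinearMap.ext fun x => ?_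
      change φ x + ω (Θ x) = φ (Ψ (Θ x)) + ω (Θ x)
      rw [hΨa, hΘa, Φ.symm_apply_apply]
    calc ‖ψ.comp Ψ + ω‖ ≤ ‖ψ + ω.comp Θ‖ := by rw [e1]; exact hnorm _
      _ ≤ ‖φ + ω.comp Θ‖ := free_sum_le h hφ hψ (hω.comp hΘl) hab
      _ ≤ ‖φ.comp Ψ + ω‖ := by rw [e2]; exact hnorm' _
  have h5 : ψ.comp Ψ = φ.comp Ψ := by
    refine hom_ext (hψ.comp hΨl) (hφ.comp hΨl) fun γ => le_antisymm (α := ℝ) ?_ ?_
    · exact key (hφ.comp hΨl) ((hnorm φ).trans h2') (hsum hφ hψ habs) γ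
    · exact key (hψ.comp hΨl) ((hnorm ψ).trans h4') (hsum hψ hφ fun a => (habs a).symm) γ
  obtain ⟨a⟩ := ‹Nonempty A›
  have h6 : ψ (δ a) = φ (δ a) := by
    have h7 := DFunLike.congr_fun h5 (Φ (δ a))
    rw [ContinuousLinearMap.comp_apply, ContinuousLinearMap.comp_apply, hΨa,
      Φ.symm_apply_apply] at h7
    exact h7
  rw [h1, h3] at h6
  have h7 : (-1 : ℝ) = 1 := h6
  norm_num at h7

end free

/-- Free Banach lattices exist on all nonempty sets, and there is a projective Banach lattice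
without topological order unit that is not isometrically lattice isomorphic to a free Banach
lattice. -/
theorem result :
    (∀ (A : Type) [Nonempty A], ∃ (F : BLat) (δ : A → F), IsFree A F δ) ∧
    ∃ P : BLat, Projective P ∧ (¬ ∃ e : P, IsTopOrderUnit e) ∧
      ∀ (A : Type) [Nonempty A] (F : BLat) (δ : A → F), IsFree A F δ →
        ¬ ∃ Φ : F ≃ₗᵢ[ℝ] P, ∀ x, Φ |x| = |Φ x| := by
  refine ⟨fun A _ => exists_free A, PP ℝ True, PP_projective, ?_, ?_⟩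
  · rintro ⟨e, he⟩
    exact PP_no_unit Cardinal.not_countable_real e he
  · rintro A _ F δ hF ⟨Φ, hΦ⟩
    exact not_iso hF Φ hΦ

end Pool.Agent.Results.MP_be51b2_an.Positive
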